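import Pool.Agent.Helper654_DO.AllSum
import Pool.Agent.Helper654_DO.Ex6
import Pool.Agent.Helper654_DO.T_mahler2
import Pool.Agent.Helper654_DO.T_shortconst

/-!
# Non-obvious divergent orbits of small split subgroups

Part 1 answers the question for every `ℚ`-simple real algebraic group `G` defined over `ℚ`: for every
arithmetic subgroup `Γ`, every maximal `ℝ`-split torus `A` and every closed connected subgroup `D` of
`A` with `0 < dim D < rank_ℚ G`, some divergent orbit of `D` in `G / Γ` is not obvious.

Part 2 treats all semisimple `G`, with conditions on the `ℚ`-simple factors `G_k` of `G`: the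
projection of `D` to `G_k` has dimension at most `rank_ℚ G_k`, and (unless `rank_ℚ G_k = 0`)
`dim (D ∩ G_k) < rank_ℚ G_k`.

Part 3: for semisimple groups the condition `0 < dim D < rank_ℚ G` alone is not enough: for
`SL₂ × SL₂` and the diagonal group `D` of the first factor every divergent orbit of `D` is obvious.
-/

set_option autoImplicit false

open Module

namespace Pool.Agent.Results.MP_bb6588_an.NonObviousOrbits

open Pool.Agent.Helper654_DO

/-- Part 1: let `H` be a real algebraic group `G` defined over `ℚ` whose rational Lie algebra is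
simple, let `Γ` be commensurable with `G(ℤ)`, let `a` be a maximal split subspace of the Lie algebra
(the Lie algebra of a maximal `ℝ`-split torus) and `d ≤ a` a subspace with `0 < dim d < rank_ℚ G`. Then
there is a point of `G / Γ` whose orbit under `D = exp(d)` is divergent and not obvious.

Part 2: the same if the rational Lie algebra is semisimple with simple ideals `I k`, `0 < dim d`, the
codimension in `d` of its intersection with the sum of the other ideals is at most `rankLie (I k)` (so
the projection of `d` to the real span of `I k` has at most this dimension), and the intersection of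
`d` with the real span of `I k` has dimension less than `rankLie (I k)` unless `rankLie (I k) = 0`.

Part 3: for some group `G` with a semisimple rational Lie algebra with two simple ideals
(`G = SL₂ × SL₂`), for `Γ = G(ℤ)`, some `a` as above and some `d ≤ a` with `0 < dim d < rank_ℚ G` every
divergent orbit of `D = exp(d)` in `G / Γ` is obvious. -/
theorem result :
    (∀ {N : ℕ} (H : QGroup N), IsSimpleLie H.lieQ →
      ∀ Γ : Subgroup H.G, Γ.Commensurable H.intPoints →
      ∀ a : Submodule ℝ (Mat N), IsMaxSplit H.lieR a →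
      ∀ (d : Submodule ℝ (Mat N)) (_ : d ≤ a) (hd : d ≤ H.lieR),
        0 < finrank ℝ d → finrank ℝ d < H.rankQ →
        ∃ x : H.G ⧸ Γ, QGroup.Divergent Γ hd x ∧ ¬ QGroup.Obvious Γ hd x) ∧
    (∀ {N m : ℕ} (H : QGroup N) (I : Fin m → Submodule ℚ (MatQ N)), IsSumOfSimple H.lieQ I →
      ∀ Γ : Subgroup H.G, Γ.Commensurable H.intPoints →
      ∀ a : Submodule ℝ (Mat N), IsMaxSplit H.lieR a →
      ∀ (d : Submodule ℝ (Mat N)) (_ : d ≤ a) (hd : d ≤ H.lieR),
        0 < finrank ℝ d →
        (∀ k, finrank ℝ d ≤
          finrank ℝ (d ⊓ realSpan (⨆ j : {j : Fin m // j ≠ k}, I j.1) : Submodule ℝ (Mat N)) +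
            rankLie (I k)) →
        (∀ k, rankLie (I k) ≠ 0 →
          finrank ℝ (d ⊓ realSpan (I k) : Submodule ℝ (Mat N)) < rankLie (I k)) →
        ∃ x : H.G ⧸ Γ, QGroup.Divergent Γ hd x ∧ ¬ QGroup.Obvious Γ hd x) ∧
    (∃ (H : QGroup 4) (I : Fin 2 → Submodule ℚ (MatQ 4)), IsSumOfSimple H.lieQ I ∧
      ∃ a : Submodule ℝ (Mat 4), IsMaxSplit H.lieR a ∧
      ∃ (d : Submodule ℝ (Mat 4)) (_ : d ≤ a) (hd : d ≤ H.lieR),
        0 < finrank ℝ d ∧ finrank ℝ d < H.rankQ ∧
        ∀ x : H.G ⧸ H.intPoints, QGroup.Divergent H.intPoints hd x →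
          QGroup.Obvious H.intPoints hd x) := by
  refine ⟨fun H hL Γ hΓ a ha d hda _ hd0 hd1 =>
    exists_divergent_not_obvious H hL Γ hΓ a ha d hda hd0 hd1, ?_, ?_⟩
  · intro N m H I hI Γ hΓ a ha d hda hd hd0 c1 c2
    exact exists_divergent_not_obvious_sum H I hI Γ hΓ d hd
      ⟨fun x hx y hy => ha.split.comm x (hda hx) y (hda hy), fun x hx => ha.split.diag x (hda hx)⟩
      hd0 c1 c2
  · refine ⟨ex.HH, ![ex.J1, ex.J2], ex.sumOfSimple, ex.aa, ex.maxSplit, ex.dd, ex.dd_le,
      ex.dd_le.trans ex.aa_le, ?_, ?_, ex.obvious_of_divergent T_mahler2 T_shortconst⟩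
    · rw [ex.finrank_dd]
      exact Nat.one_pos
    · rw [ex.finrank_dd]
      exact ex.two_le_rank

end Pool.Agent.Results.MP_bb6588_an.NonObviousOrbits
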